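import Mathlib
import Pool.Agent.R710.Cc.Lower

/-!
# A local class counting zeta function of a graphical group scheme with the pole 37/3
-/

set_option autoImplicit false

open Filter Topology

namespace Pool.Agent.Results.MP_3df142_al.PoleThird

open Pool.Agent.R710.Cc

/-- The terms `k(G_Γ(𝔒 / 𝔓 ^ n)) q ^ (-n s)` of the class counting zeta function of `Γ` over the
local ring `𝔒` with the maximal ideal `𝔓` and the residue field of size `q`. -/
noncomputable def zetaTerm {V : Type*} [LinearOrder V] (Γ : SimpleGraph V) (𝔒 : Type*)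
    [CommRing 𝔒] [IsLocalRing 𝔒] (s : ℂ) (n : ℕ) : ℂ :=
  (Nat.card (ConjClasses (GG Γ (𝔒 ⧸ IsLocalRing.maximalIdeal 𝔒 ^ n))) : ℂ) *
    (Nat.card (IsLocalRing.ResidueField 𝔒) : ℂ) ^ (-(n : ℂ) * s)

/-- The class counting zeta function has a pole at `s₀`: the series converges on some half plane
`Re s > σ`, and every meromorphic continuation of its sum to `ℂ` has a pole at `s₀`. -/
def HasPole {V : Type*} [LinearOrder V] (Γ : SimpleGraph V) (𝔒 : Type*)
    [CommRing 𝔒] [IsLocalRing 𝔒] (s₀ : ℂ) : Prop :=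
  ∃ σ : ℝ, (∀ s : ℂ, σ < s.re → Summable (zetaTerm Γ 𝔒 s)) ∧
    ∀ F : ℂ → ℂ, (∀ s, MeromorphicAt F s) →
      (∀ s : ℂ, σ < s.re → F s = ∑' n, zetaTerm Γ 𝔒 s n) → meromorphicOrderAt F s₀ < 0

section padic

variable (p : ℕ) [hp : Fact p.Prime]

/-- `ℤ_p / p ^ n` is `ℤ / p ^ n`. -/
noncomputable def quotEquiv (n : ℕ) :
    ℤ_[p] ⧸ IsLocalRing.maximalIdeal ℤ_[p] ^ n ≃+* ZMod (p ^ n) :=
  (Ideal.quotEquivOfEq (by
    rw [PadicInt.maximalIdeal_eq_span_p, Ideal.span_singleton_pow, PadicInt.ker_toZModPow])).trans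
    (RingHom.quotientKerEquivOfSurjective (ZMod.ringHom_surjective (PadicInt.toZModPow (p := p) n)))

theorem card_residue : Nat.card (IsLocalRing.ResidueField ℤ_[p]) = p := by
  rw [Nat.card_congr (PadicInt.residueField (p := p)).toEquiv, Nat.card_zmod]

theorem card_Par_congr {V : Type*} [LinearOrder V] {Γ : SimpleGraph V} {R R' : Type*} [CommRing R]
    [CommRing R'] (e : R ≃+* R') : Nat.card (Par Γ R) = Nat.card (Par Γ R') := by
  refine Nat.card_congr (Equiv.subtypeEquiv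
    (Equiv.prodCongr (Equiv.arrowCongr (Equiv.refl V) e.toEquiv)
      (Equiv.arrowCongr (Equiv.refl V) e.toEquiv)) fun q => ?_)
  refine forall_congr' fun a => ?_
  simp only [Equiv.prodCongr_apply, Prod.map, Equiv.arrowCongr_apply, Equiv.refl_symm,
    Function.comp_apply, Equiv.coe_refl, id]
  rw [← e.injective.eq_iff, map_mul, map_mul]
  rfl

theorem zetaTerm_eq (s : ℂ) (n : ℕ) : zetaTerm Γ₁ ℤ_[p] s n =
    ((p ^ (2 * n) * Nat.card (Par Γ₁ (ZMod (p ^ n))) : ℕ) : ℂ) * (p : ℂ) ^ (-(n : ℂ) * s) := by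
  have : Finite (ℤ_[p] ⧸ IsLocalRing.maximalIdeal ℤ_[p] ^ n) :=
    Finite.of_equiv _ (quotEquiv p n).symm.toEquiv
  rw [zetaTerm, card_residue, card_conj_mul card_edge, card_Par_congr (quotEquiv p n),
    Nat.card_congr (quotEquiv p n).toEquiv, Nat.card_zmod]
  congr 3
  ring

/-- The terms for real `s`. -/
noncomputable def rt (σ : ℝ) (n : ℕ) : ℝ :=
  (p : ℝ) ^ (2 * n) * (Nat.card (Par Γ₁ (ZMod (p ^ n))) : ℝ) * (p : ℝ) ^ (-(n : ℝ) * σ)

omit hp in
theorem rt_nonneg (σ : ℝ) (n : ℕ) : 0 ≤ rt p σ n := by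
  rw [rt]; positivity

theorem norm_zetaTerm (s : ℂ) (n : ℕ) : ‖zetaTerm Γ₁ ℤ_[p] s n‖ = rt p s.re n := by
  rw [zetaTerm_eq, norm_mul, Complex.norm_natCast, Complex.norm_natCast_cpow_of_pos hp.out.pos, rt]
  push_cast
  congr 2
  simp

theorem zetaTerm_ofReal (σ : ℝ) (n : ℕ) : zetaTerm Γ₁ ℤ_[p] σ n = (rt p σ n : ℂ) := by
  rw [zetaTerm_eq, rt]
  push_cast
  congr 1
  rw [Complex.ofReal_cpow (by positivity)]
  push_cast
  rfl

theorem rt_le (σ : ℝ) (n : ℕ) :
    rt p σ n ≤ ((n : ℝ) + 1) ^ 9 * ((p : ℝ) ^ (-(σ - 37 / 3))) ^ n := by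
  have hp0 : (0 : ℝ) < p := by exact_mod_cast hp.out.pos
  have h1 : (Nat.card (Par Γ₁ (ZMod (p ^ n))) : ℝ) ≤ ((n : ℝ) + 1) ^ 9 * (p : ℝ) ^ ((31 : ℝ) * n / 3) := by
    calc (Nat.card (Par Γ₁ (ZMod (p ^ n))) : ℝ)
        ≤ ∑ j : Fin 9 → Fin (n + 1), ((Y p n fun v => (j v : ℕ)).card : ℝ) := by
          exact_mod_cast card_Par_le (p := p) (k := n)
      _ ≤ ∑ _j : Fin 9 → Fin (n + 1), (p : ℝ) ^ ((31 : ℝ) * n / 3) := by
          refine Finset.sum_le_sum fun j _ => ?_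
          have h2 : ((Y p n fun v => (j v : ℕ)).card : ℝ) ^ 3 ≤ (p : ℝ) ^ (31 * n) := by
            exact_mod_cast card_Y_le (p := p) (k := n) (j := fun v => (j v : ℕ))
              fun v => Nat.lt_succ_iff.1 (j v).2
          have h3 : ((p : ℝ) ^ ((31 : ℝ) * n / 3)) ^ 3 = (p : ℝ) ^ (31 * n) := by
            rw [← Real.rpow_natCast ((p : ℝ) ^ ((31 : ℝ) * n / 3)), ← Real.rpow_mul hp0.le,
              ← Real.rpow_natCast]
            congr 1
            push_cast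
            ring
          rw [← h3] at h2
          exact le_of_pow_le_pow_left₀ (by norm_num) (by positivity) h2
      _ = _ := by
          rw [Finset.sum_const, Finset.card_univ, Fintype.card_fun, Fintype.card_fin,
            Fintype.card_fin, nsmul_eq_mul]
          push_cast
          ring
  rw [rt]
  have h4 : (p : ℝ) ^ (2 * n) * (p : ℝ) ^ ((31 : ℝ) * n / 3) * (p : ℝ) ^ (-(n : ℝ) * σ) =
      ((p : ℝ) ^ (-(σ - 37 / 3))) ^ n := by
    rw [← Real.rpow_natCast ((p : ℝ) ^ (-(σ - 37 / 3))), ← Real.rpow_mul hp0.le,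
      ← Real.rpow_natCast (p : ℝ) (2 * n), ← Real.rpow_add hp0, ← Real.rpow_add hp0]
    congr 1
    push_cast
    ring
  calc (p : ℝ) ^ (2 * n) * (Nat.card (Par Γ₁ (ZMod (p ^ n))) : ℝ) * (p : ℝ) ^ (-(n : ℝ) * σ)
      ≤ (p : ℝ) ^ (2 * n) * (((n : ℝ) + 1) ^ 9 * (p : ℝ) ^ ((31 : ℝ) * n / 3)) *
        (p : ℝ) ^ (-(n : ℝ) * σ) := by gcongr
    _ = ((n : ℝ) + 1) ^ 9 * ((p : ℝ) ^ (2 * n) * (p : ℝ) ^ ((31 : ℝ) * n / 3) *
        (p : ℝ) ^ (-(n : ℝ) * σ)) := by ring
    _ = _ := by rw [h4]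

theorem summable_rt {σ : ℝ} (hσ : 37 / 3 < σ) : Summable (rt p σ) := by
  have hp1 : (1 : ℝ) < p := by exact_mod_cast hp.out.one_lt
  have hr : (p : ℝ) ^ (-(σ - 37 / 3)) < 1 :=
    Real.rpow_lt_one_of_one_lt_of_neg hp1 (by linarith)
  have hr0 : 0 < (p : ℝ) ^ (-(σ - 37 / 3)) := Real.rpow_pos_of_pos (by linarith) _
  refine Summable.of_nonneg_of_le (rt_nonneg p σ) (rt_le p σ) ?_
  have h1 : Summable fun n : ℕ => ((n : ℝ) ^ 9 * ((p : ℝ) ^ (-(σ - 37 / 3))) ^ n) := by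
    refine summable_pow_mul_geometric_of_norm_lt_one 9 ?_
    rwa [Real.norm_of_nonneg hr0.le]
  have h2 := ((summable_nat_add_iff 1).2 h1).mul_left ((p : ℝ) ^ (-(σ - 37 / 3)))⁻¹
  refine h2.congr fun n => ?_
  generalize (p : ℝ) ^ (-(σ - 37 / 3)) = r at hr0
  have hr1 : r ≠ 0 := hr0.ne'
  rw [pow_succ r n]
  push_cast
  field_simp

theorem rt_ge {j : ℕ} (hj : 0 < j) : 1 / 4 ≤ rt p (37 / 3) (3 * j) := by
  have hp0 : (0 : ℝ) < p := by exact_mod_cast hp.out.pos
  have h1 : (p : ℝ) ^ (31 * j) ≤ 4 * (Nat.card (Par Γ₁ (ZMod (p ^ (3 * j)))) : ℝ) := by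
    exact_mod_cast le_card_Par (p := p) hj
  have h2 : (p : ℝ) ^ (2 * (3 * j)) * (p : ℝ) ^ (31 * j) *
      (p : ℝ) ^ (-((3 * j : ℕ) : ℝ) * (37 / 3)) = 1 := by
    rw [← pow_add, ← Real.rpow_natCast, ← Real.rpow_add hp0]
    convert Real.rpow_zero (p : ℝ)
    push_cast
    ring
  rw [rt]
  calc (1 : ℝ) / 4 = (p : ℝ) ^ (2 * (3 * j)) * ((p : ℝ) ^ (31 * j) / 4) *
        (p : ℝ) ^ (-((3 * j : ℕ) : ℝ) * (37 / 3)) := by
        rw [← h2]; ring
    _ ≤ _ := by
        gcongr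
        linarith

theorem hasPole : HasPole Γ₁ ℤ_[p] (37 / 3) := by
  refine ⟨37 / 3, fun s hs => ?_, fun F hF hFs => ?_⟩
  · rw [← summable_norm_iff]
    simpa only [norm_zetaTerm] using summable_rt p hs
  · by_contra hord
    rw [not_lt] at hord
    obtain ⟨c, hc⟩ := tendsto_nhds_of_meromorphicOrderAt_nonneg (hF _) hord
    -- restrict to real `σ > 37 / 3`
    have hT : Tendsto (fun σ : ℝ => (σ : ℂ)) (𝓝[>] (37 / 3 : ℝ)) (𝓝[≠] (37 / 3 : ℂ)) := by
      refine tendsto_nhdsWithin_iff.2 ⟨?_, ?_⟩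
      · have : Tendsto (fun σ : ℝ => (σ : ℂ)) (𝓝 (37 / 3 : ℝ)) (𝓝 ((37 / 3 : ℝ) : ℂ)) :=
          (Complex.continuous_ofReal.tendsto _)
        refine (this.mono_left nhdsWithin_le_nhds).congr' ?_ |>.trans ?_
        · exact Eventually.of_forall fun _ => rfl
        · push_cast
          exact le_rfl
      · filter_upwards [self_mem_nhdsWithin] with σ hσ
        intro h
        have h' : (σ : ℂ) = ((37 / 3 : ℝ) : ℂ) := by
          rw [Set.mem_singleton_iff] at h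
          rw [h]
          push_cast
          rfl
        exact (ne_of_gt hσ) (Complex.ofReal_injective h')
    have h1 : Tendsto (fun σ : ℝ => ‖F σ‖) (𝓝[>] (37 / 3 : ℝ)) (𝓝 ‖c‖) :=
      (hc.comp hT).norm
    have h2 : ∀ σ : ℝ, 37 / 3 < σ → ‖F σ‖ = ∑' n, rt p σ n := by
      intro σ hσ
      rw [hFs σ (by simpa using hσ)]
      simp only [zetaTerm_ofReal]
      rw [← Complex.ofReal_tsum, Complex.norm_real, Real.norm_of_nonneg]
      exact tsum_nonneg (rt_nonneg p σ)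
    -- partial sums are bounded
    have h3 : ∀ N : ℕ, ∑ n ∈ Finset.range N, rt p (37 / 3) n ≤ ‖c‖ := by
      intro N
      have h4 : Tendsto (fun σ : ℝ => ∑ n ∈ Finset.range N, rt p σ n) (𝓝[>] (37 / 3 : ℝ))
          (𝓝 (∑ n ∈ Finset.range N, rt p (37 / 3) n)) := by
        have : Continuous fun σ : ℝ => ∑ n ∈ Finset.range N, rt p σ n := by
          refine continuous_finsetSum _ fun n _ => ?_
          unfold rt
          have hp0 : (p : ℝ) ≠ 0 := by exact_mod_cast hp.out.ne_zero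
          exact continuous_const.mul (continuous_const.rpow (by fun_prop) fun _ => Or.inl hp0)
        exact (this.tendsto _).mono_left nhdsWithin_le_nhds
      refine le_of_tendsto_of_tendsto h4 h1 ?_
      filter_upwards [self_mem_nhdsWithin] with σ hσ
      rw [h2 σ hσ]
      exact (summable_rt p hσ).sum_le_tsum _ fun n _ => rt_nonneg p σ n
    -- but they tend to infinity
    obtain ⟨J, hJ⟩ := exists_nat_gt (4 * ‖c‖)
    have h5 := h3 (3 * (J + 1) + 1)
    have h6 : ∑ j ∈ Finset.range (J + 1), rt p (37 / 3) (3 * (j + 1)) ≤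
        ∑ n ∈ Finset.range (3 * (J + 1) + 1), rt p (37 / 3) n := by
      have hinj : Set.InjOn (fun j : ℕ => 3 * (j + 1)) (Finset.range (J + 1) : Set ℕ) := by
        intro a _ b _ hab
        simp only at hab
        omega
      rw [← Finset.sum_image (f := rt p (37 / 3)) hinj]
      refine Finset.sum_le_sum_of_subset_of_nonneg ?_ fun n _ _ => rt_nonneg p _ n
      intro x hx
      rw [Finset.mem_image] at hx
      obtain ⟨j, hj, rfl⟩ := hx
      rw [Finset.mem_range] at hj ⊢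
      omega
    have h7 : ((J : ℝ) + 1) * (1 / 4) ≤ ∑ j ∈ Finset.range (J + 1), rt p (37 / 3) (3 * (j + 1)) := by
      have := Finset.card_nsmul_le_sum (Finset.range (J + 1))
        (fun j => rt p (37 / 3) (3 * (j + 1))) (1 / 4) fun j _ => rt_ge p (Nat.succ_pos j)
      rw [Finset.card_range, nsmul_eq_mul] at this
      exact_mod_cast this
    linarith

end padic

/-- There is a graph `Γ` such that for every prime `p` the class counting zeta function of `Γ` over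
the `p`-adic integers has a pole at `37 / 3`. -/
theorem result : ∃ Γ : SimpleGraph (Fin 9), ∀ (p : ℕ) [Fact p.Prime], HasPole Γ ℤ_[p] (37 / 3) :=
  ⟨Γ₁, fun p _ => hasPole p⟩

end Pool.Agent.Results.MP_3df142_al.PoleThird
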